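import Mathlib
import Pool.Agent.H.MP_31ff53_gt.A

open Set Topology TopologicalSpace

namespace Pool.Agent.Results.MP_31ff53_gt.NotK

theorem result : ∃ (X : Type) (_ : TopologicalSpace X) (B : Set (Set X)),
    T35Space X ∧ IsTopologicalBasis B ∧ (∀ U ∈ B, IsClopen U) ∧
    (∀ C D : Set (Set X), C ⊆ B → D ⊆ B → C.Countable → (∀ c ∈ C, ∀ d ∈ D, Disjoint c d) →
      ∃ U ∈ B, (∀ c ∈ C, c ⊆ U) ∧ ∀ d ∈ D, Disjoint U d) ∧
    @CompactSpace X (generateFrom {T | ∃ U ∈ B, T = (closure U)ᶜ}) ∧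
    ¬ ∀ A : Set X, (∀ K : Set X, IsCompact K → IsClosed ((↑) ⁻¹' A : Set K)) → IsClosed A :=
  ⟨H.MP_31ff53_gt.X, inferInstance, H.MP_31ff53_gt.B, H.MP_31ff53_gt.t35, H.MP_31ff53_gt.basis,
    fun _ ⟨_, h, e⟩ => e ▸ H.MP_31ff53_gt.clopen_st h, H.MP_31ff53_gt.nested,
    H.MP_31ff53_gt.cocompact, H.MP_31ff53_gt.not_k⟩

end Pool.Agent.Results.MP_31ff53_gt.NotK
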